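import Mathlib
import Pool.Agent.L7h73.AC.Diff
import Pool.Agent.L7h97.AC.Frac

/-!
# Prime differential ideals; one differential polynomial generates a proper differential ideal
-/

set_option autoImplicit false

namespace Pool.Agent.L7h93.AC

open MvPolynomial Pool.Agent.L7h73.AC

universe u v w

section T
variable {R : Type u} [CommRing R]

theorem leib_iter (δ : R →+ R) (hδ : ∀ a b, δ (a * b) = δ a * b + a * δ b) (n : ℕ) (a b : R) :
    δ^[n] (a * b) = ∑ i ∈ Finset.range (n + 1), (n.choose i : R) * (δ^[i] a * δ^[n - i] b) := by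
  induction n with
  | zero => simp
  | succ n ih =>
    rw [Function.iterate_succ_apply', ih, map_sum]
    have hnat : ∀ (k : ℕ) (x : R), δ ((k : R) * x) = (k : R) * δ x := by
      intro k x
      rw [← nsmul_eq_mul, ← nsmul_eq_mul, map_nsmul]
    have h1 : ∀ i ∈ Finset.range (n + 1), δ ((n.choose i : R) * (δ^[i] a * δ^[n - i] b)) =
        (n.choose i : R) * (δ^[i + 1] a * δ^[n - i] b) +
        (n.choose i : R) * (δ^[i] a * δ^[n + 1 - i] b) := by
      intro i hi
      have hi' : i ≤ n := Nat.lt_succ_iff.mp (Finset.mem_range.mp hi)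
      rw [hnat, hδ, ← Function.iterate_succ_apply' δ i a, ← Function.iterate_succ_apply' δ (n - i) b,
        show (n - i).succ = n + 1 - i by omega, mul_add]
    rw [Finset.sum_congr rfl h1, Finset.sum_add_distrib, Finset.sum_range_succ' _ (n + 1)]
    have h2 : ∀ i ∈ Finset.range (n + 1),
        ((n + 1).choose (i + 1) : R) * (δ^[i + 1] a * δ^[n + 1 - (i + 1)] b) =
        (n.choose i : R) * (δ^[i + 1] a * δ^[n - i] b) +
        (n.choose (i + 1) : R) * (δ^[i + 1] a * δ^[n - i] b) := by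
      intro i _
      rw [Nat.choose_succ_succ, Nat.cast_add, add_mul, Nat.add_sub_add_right]
    rw [Finset.sum_congr rfl h2, Finset.sum_add_distrib, add_assoc]
    congr 1
    rw [Finset.sum_range_succ' _ n, Finset.sum_range_succ (fun i => (n.choose (i + 1) : R) *
      (δ^[i + 1] a * δ^[n - i] b)) n]
    simp only [Nat.choose_succ_self, Nat.cast_zero, zero_mul, add_zero, Nat.choose_zero_right,
      Nat.sub_zero]
    congr 1
    refine Finset.sum_congr rfl fun i hi => ?_
    rw [Nat.add_sub_add_right]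

/-- the largest `δ`-stable ideal contained in `Q` -/
def core (δ : R →+ R) (hδ : ∀ a b, δ (a * b) = δ a * b + a * δ b) (Q : Ideal R) : Ideal R where
  carrier := {a | ∀ n, δ^[n] a ∈ Q}
  zero_mem' := by
    intro n
    rw [iterate_map_zero]
    exact Q.zero_mem
  add_mem' := by
    intro a b ha hb n
    rw [iterate_map_add]
    exact Q.add_mem (ha n) (hb n)
  smul_mem' := by
    intro c a ha n
    rw [smul_eq_mul, leib_iter δ hδ]
    exact Ideal.sum_mem _ fun i _ => Q.mul_mem_left _ (Q.mul_mem_left _ (ha _))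

variable (δ : R →+ R) (hδ : ∀ a b, δ (a * b) = δ a * b + a * δ b) (Q : Ideal R)

theorem mem_core {a : R} : a ∈ core δ hδ Q ↔ ∀ n, δ^[n] a ∈ Q := Iff.rfl

theorem core_le : core δ hδ Q ≤ Q := fun _ h => h 0

theorem core_stable {a : R} (h : a ∈ core δ hδ Q) : δ a ∈ core δ hδ Q := by
  intro n
  rw [← Function.iterate_succ_apply]
  exact h (n + 1)

theorem le_core {I : Ideal R} (hI : I ≤ Q) (h : ∀ a ∈ I, δ a ∈ I) : I ≤ core δ hδ Q := by
  intro a ha n
  apply hI
  induction n generalizing a with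
  | zero => exact ha
  | succ n ih =>
    rw [Function.iterate_succ_apply]
    exact ih (h a ha)

theorem core_prime (hQ : Q.IsPrime) (hn : ∀ n : ℕ, n ≠ 0 → (n : R) ∉ Q) :
    (core δ hδ Q).IsPrime := by
  classical
  refine Ideal.isPrime_iff.mpr ⟨?_, ?_⟩
  · intro h
    exact hQ.ne_top (top_le_iff.mp (h ▸ core_le δ hδ Q))
  intro a b hab
  by_contra hcon
  push Not at hcon
  obtain ⟨ha, hb⟩ := hcon
  rw [mem_core] at ha hb
  push Not at ha hb
  have ha1 := Nat.find_spec ha
  have hb1 := Nat.find_spec hb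
  have ha2 := fun m (hm : m < Nat.find ha) => not_not.mp (Nat.find_min ha hm)
  have hb2 := fun m (hm : m < Nat.find hb) => not_not.mp (Nat.find_min hb hm)
  set p := Nat.find ha
  set q := Nat.find hb
  have h := hab (p + q)
  rw [leib_iter δ hδ, ← Finset.add_sum_erase _ _ (Finset.mem_range.mpr (by omega : p < p + q + 1))] at h
  have h3 : ∑ i ∈ (Finset.range (p + q + 1)).erase p,
      ((p + q).choose i : R) * (δ^[i] a * δ^[p + q - i] b) ∈ Q := by
    refine Ideal.sum_mem _ fun i hi => ?_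
    rw [Finset.mem_erase, Finset.mem_range] at hi
    rcases lt_or_gt_of_ne hi.1 with h4 | h4
    · exact Q.mul_mem_left _ (Q.mul_mem_right _ (ha2 i h4))
    · exact Q.mul_mem_left _ (Q.mul_mem_left _ (hb2 _ (by omega)))
  have h4 := (Q.add_mem_iff_left h3).mp h
  rw [Nat.add_sub_cancel_left] at h4
  rcases hQ.mem_or_mem h4 with h5 | h5
  · exact hn _ (Nat.choose_pos (by omega)).ne' h5
  · rcases hQ.mem_or_mem h5 with h6 | h6
    · exact ha1 h6
    · exact hb1 h6

end T

/-- Every proper differential ideal is contained in a prime differential ideal. -/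
theorem exists_prime {R : Type u} [CommRing R] [Diff2 R] (I : Ideal R) (hI : I ≠ ⊤)
    (h1 : ∀ a ∈ I, d1 a ∈ I) (h2 : ∀ a ∈ I, d2 a ∈ I) (hn : ∀ n : ℕ, n ≠ 0 → IsUnit (n : R)) :
    ∃ P : Ideal R, P.IsPrime ∧ I ≤ P ∧ (∀ a ∈ P, d1 a ∈ P) ∧ (∀ a ∈ P, d2 a ∈ P) := by
  obtain ⟨Q, hQ, hIQ⟩ := Ideal.exists_le_maximal I hI
  have hnQ : ∀ n : ℕ, n ≠ 0 → (n : R) ∉ Q := fun n h hmem =>
    hQ.ne_top (Ideal.eq_top_of_isUnit_mem _ hmem (hn n h))
  have hp1 := core_prime d1 leib1 Q hQ.isPrime hnQ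
  refine ⟨core d2 leib2 (core d1 leib1 Q), core_prime d2 leib2 _ hp1
    (fun n h hmem => hnQ n h (core_le _ _ _ hmem)), le_core _ _ _ (le_core _ _ _ hIQ h1) h2,
    ?_, fun a ha => core_stable _ _ _ ha⟩
  intro a ha n
  have h3 : ∀ (n : ℕ) (a : R), d2^[n] (d1 a) = d1 (d2^[n] a) := by
    intro n
    induction n with
    | zero => intro a; rfl
    | succ n ih =>
      intro a
      rw [Function.iterate_succ_apply, Function.iterate_succ_apply, ← Diff2.comm, ih]
  rw [h3]
  exact core_stable _ _ _ (ha n)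

section PDE
variable {K : Type u} [Field K] [CharZero K] [Diff2 K]

/-- the variables -/
abbrev Sg : Type := Unit × ℕ × ℕ

/-- the ranking -/
def rk (x : Sg) : ℕ ×ₗ ℕ := toLex x.2

def e1 (x : Sg) : Sg := (x.1, x.2.1 + 1, x.2.2)
def e2 (x : Sg) : Sg := (x.1, x.2.1, x.2.2 + 1)

theorem rk_lt {x y : Sg} : rk x < rk y ↔ x.2.1 < y.2.1 ∨ (x.2.1 = y.2.1 ∧ x.2.2 < y.2.2) := by
  rw [rk, rk, Prod.Lex.toLex_lt_toLex]

theorem rk_inj {x y : Sg} (h : rk x = rk y) : x = y := by
  have h2 : x.2 = y.2 := toLex.injective h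
  exact Prod.ext rfl h2

theorem rk_le {x y : Sg} : rk x ≤ rk y ↔ (rk x < rk y ∨ x = y) := by
  rw [le_iff_lt_or_eq]
  exact or_congr Iff.rfl ⟨rk_inj, fun h => by rw [h]⟩

theorem rk_e1 {x y : Sg} (h : rk x < rk y) : rk (e1 x) < rk (e1 y) := by
  rw [rk_lt] at h ⊢
  simp only [e1]
  omega

theorem rk_e2 {x y : Sg} (h : rk x < rk y) : rk (e2 x) < rk (e2 y) := by
  rw [rk_lt] at h ⊢
  simp only [e2]
  omega

theorem lt_e1 (x : Sg) : rk x < rk (e1 x) := by
  rw [rk_lt]
  simp only [e1]
  omega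

theorem lt_e2 (x : Sg) : rk x < rk (e2 x) := by
  rw [rk_lt]
  exact Or.inr ⟨rfl, Nat.lt_succ_self _⟩

/-- polynomials in the variables of rank less than that of `w` -/
noncomputable abbrev Lt (w : Sg) : Subalgebra K (MvPolynomial Sg K) :=
  supported K {x | rk x < rk w}

/-- polynomials in the variables of rank at most that of `w` -/
noncomputable abbrev Le (w : Sg) : Subalgebra K (MvPolynomial Sg K) :=
  supported K {x | rk x ≤ rk w}

omit [CharZero K] in
theorem supp_d1 {s t : Set Sg} (h : s ⊆ t) (h1 : ∀ x ∈ s, e1 x ∈ t) {p : DP K Unit}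
    (hp : p ∈ supported K s) : d1 p ∈ supported K t := by
  have hst := supported_mono (R := K) h
  induction hp using Algebra.adjoin_induction with
  | mem x hx =>
    obtain ⟨y, hy, rfl⟩ := hx
    change d1 (X y : DP K Unit) ∈ _
    rw [d1_X]
    exact X_mem_supported.mpr (h1 y hy)
  | algebraMap r =>
    change d1 (C r : DP K Unit) ∈ _
    rw [d1_C]
    exact Subalgebra.algebraMap_mem _ _
  | add x y hx hy ihx ihy =>
    rw [map_add]
    exact add_mem ihx ihy
  | mul x y hx hy ihx ihy =>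
    rw [leib1]
    exact add_mem (mul_mem ihx (hst hy)) (mul_mem (hst hx) ihy)

omit [CharZero K] in
theorem supp_d2 {s t : Set Sg} (h : s ⊆ t) (h1 : ∀ x ∈ s, e2 x ∈ t) {p : DP K Unit}
    (hp : p ∈ supported K s) : d2 p ∈ supported K t := by
  have hst := supported_mono (R := K) h
  induction hp using Algebra.adjoin_induction with
  | mem x hx =>
    obtain ⟨y, hy, rfl⟩ := hx
    change d2 (X y : DP K Unit) ∈ _
    rw [d2_X]
    exact X_mem_supported.mpr (h1 y hy)
  | algebraMap r =>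
    change d2 (C r : DP K Unit) ∈ _
    rw [d2_C]
    exact Subalgebra.algebraMap_mem _ _
  | add x y hx hy ihx ihy =>
    rw [map_add]
    exact add_mem ihx ihy
  | mul x y hx hy ihx ihy =>
    rw [leib2]
    exact add_mem (mul_mem ihx (hst hy)) (mul_mem (hst hx) ihy)

omit [CharZero K] [Diff2 K] in
theorem le_sub_lt {v w : Sg} (h : rk v < rk w) : (Le v : Subalgebra K _) ≤ Lt w :=
  supported_mono fun _ hx => lt_of_le_of_lt hx h

omit [CharZero K] [Diff2 K] in
theorem lt_sub_lt {v w : Sg} (h : rk v ≤ rk w) : (Lt v : Subalgebra K _) ≤ Lt w :=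
  supported_mono fun _ hx => lt_of_lt_of_le hx h

omit [CharZero K] [Diff2 K] in
theorem pderiv_Le {v w : Sg} {p : DP K Unit} (hp : p ∈ (Le w : Subalgebra K _)) :
    pderiv v p ∈ (Le w : Subalgebra K _) := by
  classical
  induction hp using Algebra.adjoin_induction with
  | mem x hx =>
    obtain ⟨y, hy, rfl⟩ := hx
    rw [pderiv_X]
    by_cases h : y = v
    · subst h; rw [Pi.single_eq_same]; exact one_mem _
    · rw [Pi.single_eq_of_ne h]; exact zero_mem _
  | algebraMap r =>
    change pderiv v (C r) ∈ _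
    rw [pderiv_C]
    exact zero_mem _
  | add x y hx hy ihx ihy =>
    rw [map_add]
    exact add_mem ihx ihy
  | mul x y hx hy ihx ihy =>
    rw [Derivation.leibniz, smul_eq_mul, smul_eq_mul]
    exact add_mem (mul_mem hx ihy) (mul_mem hy ihx)

omit [CharZero K] in
theorem base1 {v : Sg} {p : DP K Unit} (hp : p ∈ (Le v : Subalgebra K _)) :
    d1 p - pderiv v p * X (e1 v) ∈ (Lt (e1 v) : Subalgebra K _) := by
  classical
  induction hp using Algebra.adjoin_induction with
  | mem x hx =>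
    obtain ⟨y, hy, rfl⟩ := hx
    change d1 (X y : DP K Unit) - _ ∈ _
    rw [d1_X, pderiv_X]
    by_cases h : y = v
    · subst h
      rw [Pi.single_eq_same, one_mul]
      change X (e1 y) - X (e1 y) ∈ _
      rw [sub_self]
      exact zero_mem _
    · rw [Pi.single_eq_of_ne h, zero_mul, sub_zero]
      exact X_mem_supported.mpr (rk_e1 ((rk_le.mp hy).resolve_right h))
  | algebraMap r =>
    change d1 (C r : DP K Unit) - pderiv v (C r) * _ ∈ _
    rw [d1_C, pderiv_C, zero_mul, sub_zero]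
    exact Subalgebra.algebraMap_mem _ _
  | add x y hx hy ihx ihy =>
    rw [map_add, map_add, add_mul, add_sub_add_comm]
    exact add_mem ihx ihy
  | mul x y hx hy ihx ihy =>
    have hx' := le_sub_lt (lt_e1 v) hx
    have hy' := le_sub_lt (lt_e1 v) hy
    have h : d1 (x * y) - pderiv v (x * y) * X (e1 v) =
        (d1 x - pderiv v x * X (e1 v)) * y + x * (d1 y - pderiv v y * X (e1 v)) := by
      rw [leib1, Derivation.leibniz, smul_eq_mul, smul_eq_mul]
      ring
    rw [h]
    exact add_mem (mul_mem ihx hy') (mul_mem hx' ihy)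

omit [CharZero K] in
theorem base2 {v : Sg} {p : DP K Unit} (hp : p ∈ (Le v : Subalgebra K _)) :
    d2 p - pderiv v p * X (e2 v) ∈ (Lt (e2 v) : Subalgebra K _) := by
  classical
  induction hp using Algebra.adjoin_induction with
  | mem x hx =>
    obtain ⟨y, hy, rfl⟩ := hx
    change d2 (X y : DP K Unit) - _ ∈ _
    rw [d2_X, pderiv_X]
    by_cases h : y = v
    · subst h
      rw [Pi.single_eq_same, one_mul]
      change X (e2 y) - X (e2 y) ∈ _
      rw [sub_self]
      exact zero_mem _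
    · rw [Pi.single_eq_of_ne h, zero_mul, sub_zero]
      exact X_mem_supported.mpr (rk_e2 ((rk_le.mp hy).resolve_right h))
  | algebraMap r =>
    change d2 (C r : DP K Unit) - pderiv v (C r) * _ ∈ _
    rw [d2_C, pderiv_C, zero_mul, sub_zero]
    exact Subalgebra.algebraMap_mem _ _
  | add x y hx hy ihx ihy =>
    rw [map_add, map_add, add_mul, add_sub_add_comm]
    exact add_mem ihx ihy
  | mul x y hx hy ihx ihy =>
    have hx' := le_sub_lt (lt_e2 v) hx
    have hy' := le_sub_lt (lt_e2 v) hy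
    have h : d2 (x * y) - pderiv v (x * y) * X (e2 v) =
        (d2 x - pderiv v x * X (e2 v)) * y + x * (d2 y - pderiv v y * X (e2 v)) := by
      rw [leib2, Derivation.leibniz, smul_eq_mul, smul_eq_mul]
      ring
    rw [h]
    exact add_mem (mul_mem ihx hy') (mul_mem hx' ihy)

omit [CharZero K] in
theorem step1 {v w : Sg} (hvw : rk v < rk w) {S p : DP K Unit}
    (hS : S ∈ (Le v : Subalgebra K _)) (hp : p - S * X w ∈ (Lt w : Subalgebra K _)) :
    d1 p - S * X (e1 w) ∈ (Lt (e1 w) : Subalgebra K _) := by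
  have h : d1 p - S * X (e1 w) = d1 (p - S * X w) + d1 S * X w := by
    rw [map_sub, leib1, d1_X]
    change _ = d1 p - (d1 S * X w + S * X (e1 w)) + _
    ring
  rw [h]
  refine add_mem (supp_d1 (fun x hx => lt_trans hx (lt_e1 w)) (fun x hx => rk_e1 hx) hp)
    (mul_mem (supp_d1 (fun x hx => ?_) (fun x hx => ?_) hS) (X_mem_supported.mpr (lt_e1 w)))
  · exact lt_trans (lt_of_le_of_lt hx hvw) (lt_e1 w)
  · exact rk_e1 (lt_of_le_of_lt hx hvw)

omit [CharZero K] in
theorem step2 {v w : Sg} (hvw : rk v < rk w) {S p : DP K Unit}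
    (hS : S ∈ (Le v : Subalgebra K _)) (hp : p - S * X w ∈ (Lt w : Subalgebra K _)) :
    d2 p - S * X (e2 w) ∈ (Lt (e2 w) : Subalgebra K _) := by
  have h : d2 p - S * X (e2 w) = d2 (p - S * X w) + d2 S * X w := by
    rw [map_sub, leib2, d2_X]
    change _ = d2 p - (d2 S * X w + S * X (e2 w)) + _
    ring
  rw [h]
  refine add_mem (supp_d2 (fun x hx => lt_trans hx (lt_e2 w)) (fun x hx => rk_e2 hx) hp)
    (mul_mem (supp_d2 (fun x hx => ?_) (fun x hx => ?_) hS) (X_mem_supported.mpr (lt_e2 w)))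
  · exact lt_trans (lt_of_le_of_lt hx hvw) (lt_e2 w)
  · exact rk_e2 (lt_of_le_of_lt hx hvw)

/-- the shifted variable -/
def sh (v : Sg) (a b : ℕ) : Sg := (v.1, v.2.1 + a, v.2.2 + b)

theorem lt_sh (v : Sg) {a b : ℕ} (h : ¬ (a = 0 ∧ b = 0)) : rk v < rk (sh v a b) := by
  rw [rk_lt]
  simp only [sh]
  omega

omit [CharZero K] in
theorem lead {v : Sg} {G : DP K Unit} (hG : G ∈ (Le v : Subalgebra K _)) (a b : ℕ)
    (h : ¬ (a = 0 ∧ b = 0)) :
    d1^[a] (d2^[b] G) - pderiv v G * X (sh v a b) ∈ (Lt (sh v a b) : Subalgebra K _) := by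
  have hS : pderiv v G ∈ (Le v : Subalgebra K _) := pderiv_Le hG
  have hb : ∀ b, d2^[b + 1] G - pderiv v G * X (sh v 0 (b + 1)) ∈
      (Lt (sh v 0 (b + 1)) : Subalgebra K _) := by
    intro b
    induction b with
    | zero =>
      have h1 : sh v 0 (0 + 1) = e2 v := rfl
      rw [h1, zero_add, Function.iterate_one]
      exact base2 hG
    | succ b ih =>
      have h1 : sh v 0 (b + 1 + 1) = e2 (sh v 0 (b + 1)) := rfl
      rw [Function.iterate_succ_apply', h1]
      exact step2 (lt_sh v (by omega)) hS ih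
  induction a with
  | zero =>
    obtain ⟨c, rfl⟩ : ∃ c, b = c + 1 := ⟨b - 1, by omega⟩
    exact hb c
  | succ a ih =>
    have h1 : sh v (a + 1) b = e1 (sh v a b) := rfl
    rw [Function.iterate_succ_apply', h1]
    by_cases h0 : a = 0 ∧ b = 0
    · obtain ⟨rfl, rfl⟩ := h0
      have h2 : sh v 0 0 = v := rfl
      rw [h2, Function.iterate_zero, Function.iterate_zero, id, id]
      exact base1 hG
    · exact step1 (lt_sh v h0) hS (ih h0)

omit [CharZero K] [Diff2 K] in
theorem eval_congr {L : Type v} [CommRing L] (φ : K →+* L) {s : Set Sg} {f g : Sg → L}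
    (h : ∀ x ∈ s, f x = g x) {p : DP K Unit} (hp : p ∈ supported K s) :
    eval₂Hom φ f p = eval₂Hom φ g p := by
  induction hp using Algebra.adjoin_induction with
  | mem x hx =>
    obtain ⟨y, hy, rfl⟩ := hx
    rw [eval₂Hom_X', eval₂Hom_X', h y hy]
  | algebraMap r =>
    change eval₂Hom φ f (C r) = eval₂Hom φ g (C r)
    rw [eval₂Hom_C, eval₂Hom_C]
  | add x y hx hy ihx ihy => rw [map_add, map_add, ihx, ihy]
  | mul x y hx hy ihx ihy => rw [map_mul, map_mul, ihx, ihy]

theorem exists_rec {β : Type v} (F : (Sg → β) → Sg → β)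
    (hF : ∀ f g x, (∀ y, rk y < rk x → f y = g y) → F f x = F g x) (z : β) :
    ∃ f : Sg → β, ∀ x, f x = F f x := by
  classical
  have wf : WellFounded (fun x y : Sg => rk x < rk y) :=
    InvImage.wf rk (wellFounded_lt : WellFounded (fun a b : ℕ ×ₗ ℕ => a < b))
  let f : Sg → β := wf.fix fun x ih => F (fun y => if h : rk y < rk x then ih y h else z) x
  refine ⟨f, fun x => ?_⟩
  have h1 : f x = F (fun y => if h : rk y < rk x then f y else z) x := wf.fix_eq _ x
  rw [h1]
  refine hF _ _ _ fun y hy => ?_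
  rw [dif_pos hy]

omit [CharZero K] in
/-- formal solution of one differential equation with a nonzero separant -/
theorem exists_sol {L : Type v} [Field L] {v : Sg} {G : DP K Unit}
    (hG : G ∈ (Le v : Subalgebra K _)) (ψ0 : DP K Unit →+* L) (h0 : ψ0 G = 0)
    (hS : ψ0 (pderiv v G) ≠ 0) :
    ∃ ψ : DP K Unit →+* L, ∀ a b, ψ (d1^[a] (d2^[b] G)) = 0 := by
  classical
  obtain ⟨f, hf⟩ := exists_rec (fun (f : Sg → L) (x : Sg) => if rk x ≤ rk v then ψ0 (X x) else
    if v.2.1 ≤ x.2.1 ∧ v.2.2 ≤ x.2.2 then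
      - eval₂Hom (ψ0.comp C) f (d1^[x.2.1 - v.2.1] (d2^[x.2.2 - v.2.2] G) -
        pderiv v G * X x) / ψ0 (pderiv v G) else 0) (by
    intro f g x hfg
    split_ifs with h1 h2
    · rfl
    · have hx : x = sh v (x.2.1 - v.2.1) (x.2.2 - v.2.2) := by
        obtain ⟨u, i, j⟩ := x
        simp only [sh, Prod.mk.injEq, true_and]
        simp only at h2
        omega
      have hne : ¬ (x.2.1 - v.2.1 = 0 ∧ x.2.2 - v.2.2 = 0) := by
        intro h3
        apply h1
        rw [hx, h3.1, h3.2]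
        exact le_refl _
      have h4 := lead hG _ _ hne
      rw [← hx] at h4
      rw [eval_congr (ψ0.comp C) (f := f) (g := g) (fun y hy => hfg y hy) h4]
    · rfl) 0
  refine ⟨eval₂Hom (ψ0.comp C) f, ?_⟩
  have hle : ∀ p ∈ (Le v : Subalgebra K _), eval₂Hom (ψ0.comp C) f p = ψ0 p := by
    intro p hp
    rw [eval_congr (ψ0.comp C) (f := f) (g := fun x => ψ0 (X x)) (fun y hy => ?_) hp]
    · congr 1
      apply MvPolynomial.ringHom_ext
      · intro r; simp
      · intro i; simp
    · rw [hf y]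
      exact if_pos hy
  intro a b
  by_cases h : a = 0 ∧ b = 0
  · obtain ⟨rfl, rfl⟩ := h
    change eval₂Hom (ψ0.comp C) f G = 0
    rw [hle G hG, h0]
  · have h1 : ¬ rk (sh v a b) ≤ rk v := not_le.mpr (lt_sh v h)
    have h2 := hf (sh v a b)
    rw [if_neg h1, if_pos ⟨by simp [sh], by simp [sh]⟩] at h2
    have h3 : (sh v a b).2.1 - v.2.1 = a := by simp [sh]
    have h4 : (sh v a b).2.2 - v.2.2 = b := by simp [sh]
    rw [h3, h4, map_sub, map_mul, eval₂Hom_X', hle _ (pderiv_Le hG)] at h2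
    rw [eq_div_iff hS] at h2
    linear_combination h2

omit [CharZero K] [Diff2 K] in
theorem totalDegree_pderiv {σ : Type w} (G : MvPolynomial σ K) (v : σ) (h : pderiv v G ≠ 0) :
    (pderiv v G).totalDegree < G.totalDegree := by
  classical
  obtain ⟨m, hm, hd⟩ := Finset.exists_mem_eq_sup (pderiv v G).support
    (Finset.nonempty_iff_ne_empty.mpr fun h' => h (support_eq_empty.mp h'))
    (fun s => s.sum fun _ e => e)
  rw [mem_support_iff, coeff_pderiv] at hm
  have h1 : m + Finsupp.single v 1 ∈ G.support := by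
    rw [mem_support_iff]
    exact left_ne_zero_of_mul hm
  have h2 := le_totalDegree h1
  rw [Finsupp.sum_add_index' (fun _ => rfl) (fun _ _ _ => rfl), Finsupp.sum_single_index rfl] at h2
  rw [totalDegree, hd]
  exact h2

omit [CharZero K] [Diff2 K] in
theorem not_const_iff {σ : Type w} (G : MvPolynomial σ K) :
    G ∉ Set.range (C : K →+* MvPolynomial σ K) ↔ G.vars.Nonempty := by
  classical
  rw [Finset.nonempty_iff_ne_empty, Ne, vars_eq_empty_iff_eq_C, not_iff_not]
  constructor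
  · rintro ⟨c, rfl⟩
    rw [coeff_C, if_pos rfl]
  · intro h
    exact ⟨_, h.symm⟩

/-- A nonconstant differential polynomial lies in a prime differential ideal. -/
theorem exists_prime_mem (Φ : DP K Unit) (hΦ : Φ ∉ Set.range (C : K →+* DP K Unit)) :
    ∃ P : Ideal (DP K Unit), P.IsPrime ∧ Φ ∈ P ∧ (∀ a ∈ P, d1 a ∈ P) ∧ (∀ a ∈ P, d2 a ∈ P) := by
  classical
  have hΦ0 : Φ ≠ 0 := by
    rintro rfl
    exact hΦ ⟨0, map_zero _⟩
  have hu : ¬ IsUnit Φ := by
    intro h
    rw [isUnit_iff_eq_C_of_isReduced] at h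
    obtain ⟨r, _, h⟩ := h
    exact hΦ ⟨r, h.symm⟩
  obtain ⟨G, hG, hGΦ⟩ := WfDvdMonoid.exists_irreducible_factor hu hΦ0
  have hGc : G ∉ Set.range (C : K →+* DP K Unit) := by
    rintro ⟨c, rfl⟩
    by_cases hc : c = 0
    · subst hc
      rw [map_zero] at hG
      exact hG.ne_zero rfl
    · exact hG.not_isUnit ((isUnit_iff_ne_zero.mpr hc).map C)
  have hGp : Prime G := UniqueFactorizationMonoid.irreducible_iff_prime.mp hG
  obtain ⟨v, hv, hmax⟩ := Finset.exists_max_image G.vars rk ((not_const_iff G).mp hGc)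
  have hGv : G ∈ (Le v : Subalgebra K _) := by
    rw [mem_supported]
    intro x hx
    exact hmax x hx
  have hS0 : pderiv v G ≠ 0 := pderiv_ne_zero hv
  have hndvd : ¬ G ∣ pderiv v G := by
    rintro ⟨H, hH⟩
    have hH0 : H ≠ 0 := by
      rintro rfl
      rw [mul_zero] at hH
      exact hS0 hH
    have h1 := totalDegree_pderiv G v hS0
    rw [hH, totalDegree_mul_of_isDomain hGp.ne_zero hH0] at h1
    omega
  have hI : (Ideal.span {G} : Ideal (DP K Unit)).IsPrime :=
    (Ideal.span_singleton_prime hGp.ne_zero).mpr hGp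
  let L := FractionRing (DP K Unit ⧸ (Ideal.span {G} : Ideal (DP K Unit)))
  let ψ0 : DP K Unit →+* L := (algebraMap (DP K Unit ⧸ (Ideal.span {G} : Ideal (DP K Unit))) L).comp
    (Ideal.Quotient.mk _)
  have hψ0 : ∀ p, ψ0 p = 0 ↔ G ∣ p := by
    intro p
    change algebraMap (DP K Unit ⧸ (Ideal.span {G} : Ideal (DP K Unit))) L
      (Ideal.Quotient.mk _ p) = 0 ↔ _
    rw [IsFractionRing.to_map_eq_zero_iff, Ideal.Quotient.eq_zero_iff_mem,
      Ideal.mem_span_singleton]
  obtain ⟨ψ, hψ⟩ := exists_sol hGv ψ0 ((hψ0 G).mpr dvd_rfl) (fun h => hndvd ((hψ0 _).mp h))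
  have hker : (RingHom.ker ψ).IsPrime := RingHom.ker_isPrime ψ
  have hn : ∀ n : ℕ, n ≠ 0 → (n : DP K Unit) ∉ RingHom.ker ψ := by
    intro n hn hmem
    rw [RingHom.mem_ker] at hmem
    have h1 : ψ (C (n : K)) = 0 := by rw [map_natCast]; exact hmem
    have h2 : (ψ.comp C) (n : K) = 0 := h1
    rw [map_eq_zero] at h2
    exact hn (Nat.cast_eq_zero.mp h2)
  have hp1 := core_prime d1 leib1 _ hker hn
  refine ⟨core d2 leib2 (core d1 leib1 (RingHom.ker ψ)), core_prime d2 leib2 _ hp1
    (fun n h hmem => hn n h (core_le _ _ _ hmem)), ?_, ?_, fun a ha => core_stable _ _ _ ha⟩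
  · obtain ⟨H, rfl⟩ := hGΦ
    refine Ideal.mul_mem_right _ _ ?_
    intro n m
    rw [RingHom.mem_ker]
    exact hψ m n
  · intro a ha n
    have h3 : ∀ (n : ℕ) (a : DP K Unit), d2^[n] (d1 a) = d1 (d2^[n] a) := by
      intro n
      induction n with
      | zero => intro a; rfl
      | succ n ih =>
        intro a
        rw [Function.iterate_succ_apply, Function.iterate_succ_apply, ← Diff2.comm, ih]
    rw [h3]
    exact core_stable _ _ _ (ha n)

end PDE

end Pool.Agent.L7h93.AC
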