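import Mathlib
import Pool.Agent.L7h93.AC.Closure1

/-!
# Adjoining zeros of differential polynomials
-/

set_option autoImplicit false

namespace Pool.Agent.L7h93.AC

open MvPolynomial Pool.Agent.L7h73.AC

universe u v w

section quot
variable {R : Type u} [CommRing R]

/-- the map induced on the quotient by a `P`-stable additive map -/
def qmap (P : Ideal R) (δ : R →+ R) (h : ∀ a ∈ P, δ a ∈ P) : R ⧸ P →+ R ⧸ P :=
  QuotientAddGroup.map P.toAddSubgroup P.toAddSubgroup δ h

theorem qmap_mk (P : Ideal R) (δ : R →+ R) (h : ∀ a ∈ P, δ a ∈ P) (a : R) :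
    qmap P δ h (Ideal.Quotient.mk P a) = Ideal.Quotient.mk P (δ a) := rfl

/-- the quotient by a differential ideal -/
@[reducible] def quotDiff [Diff2 R] (P : Ideal R) (h1 : ∀ a ∈ P, d1 a ∈ P) (h2 : ∀ a ∈ P, d2 a ∈ P) :
    Diff2 (R ⧸ P) where
  d1 := qmap P d1 h1
  d2 := qmap P d2 h2
  leib1 := by
    intro a b
    obtain ⟨a, rfl⟩ := Ideal.Quotient.mk_surjective a
    obtain ⟨b, rfl⟩ := Ideal.Quotient.mk_surjective b
    rw [← map_mul, qmap_mk, qmap_mk, qmap_mk, leib1, map_add, map_mul, map_mul]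
  leib2 := by
    intro a b
    obtain ⟨a, rfl⟩ := Ideal.Quotient.mk_surjective a
    obtain ⟨b, rfl⟩ := Ideal.Quotient.mk_surjective b
    rw [← map_mul, qmap_mk, qmap_mk, qmap_mk, leib2, map_add, map_mul, map_mul]
  comm := by
    intro a
    obtain ⟨a, rfl⟩ := Ideal.Quotient.mk_surjective a
    rw [qmap_mk, qmap_mk, qmap_mk, qmap_mk, Diff2.comm]

end quot

/-- the iterates commute with a differential homomorphism -/
theorem IsDiff.iter {B : Type u} {B' : Type v} [CommRing B] [Diff2 B] [CommRing B'] [Diff2 B']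
    {φ : B →+* B'} (h : IsDiff φ) (i j : ℕ) (b : B) :
    φ (d1^[i] (d2^[j] b)) = d1^[i] (d2^[j] (φ b)) := by
  have h2 : ∀ (j : ℕ) (b : B), φ (d2^[j] b) = d2^[j] (φ b) := by
    intro j
    induction j with
    | zero => intro b; rfl
    | succ j ih => intro b; rw [Function.iterate_succ_apply, ih, h.d2, ← Function.iterate_succ_apply]
  have h1 : ∀ (i : ℕ) (b : B), φ (d1^[i] b) = d1^[i] (φ b) := by
    intro i
    induction i with
    | zero => intro b; rfl
    | succ i ih => intro b; rw [Function.iterate_succ_apply, ih, h.d1, ← Function.iterate_succ_apply]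
  rw [h1, h2]

/-- A differential homomorphism from the ring of differential polynomials is an evaluation. -/
theorem eq_lift {B : Type u} {B' : Type v} [CommRing B] [Diff2 B] [CommRing B'] [Diff2 B']
    {V : Type w} {π : DP B V →+* B'} (h : IsDiff π) :
    π = DP.lift (π.comp C) (fun v => π (X (v, 0, 0))) := by
  apply MvPolynomial.ringHom_ext
  · intro r
    rw [DP.lift_C]; rfl
  · rintro ⟨v, i, j⟩
    rw [DP.lift_X, ← IsDiff.iter h]
    congr 1
    have h2 : ∀ j, d2^[j] (X (v, 0, 0) : DP B V) = X (v, 0, j) := by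
      intro j
      induction j with
      | zero => rfl
      | succ j ih => rw [Function.iterate_succ_apply', ih, d2_X]
    have h1 : ∀ i j, d1^[i] (X (v, 0, j) : DP B V) = X (v, i, j) := by
      intro i j
      induction i with
      | zero => rfl
      | succ i ih => rw [Function.iterate_succ_apply', ih, d1_X]
    rw [h2, h1]

/-- A bundled differential field of characteristic zero. -/
structure DF : Type 1 where
  A : Type
  [fld : Field A]
  [cz : CharZero A]
  [df : Diff2 A]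

attribute [instance] DF.fld DF.cz DF.df

/-- A differential field extension generated by a prime differential ideal. -/
theorem exists_ext (K : DF) (V : Type) (P : Ideal (DP K.A V)) (hP : P.IsPrime)
    (h1 : ∀ a ∈ P, d1 a ∈ P) (h2 : ∀ a ∈ P, d2 a ∈ P) :
    ∃ (L : DF) (φ : K.A →+* L.A) (z : V → L.A), IsDiff φ ∧ ∀ p ∈ P, DP.lift φ z p = 0 := by
  let _ : Diff2 (DP K.A V ⧸ P) := quotDiff P h1 h2
  have hmk : IsDiff (Ideal.Quotient.mk P) := ⟨fun b => rfl, fun b => rfl⟩
  let π : DP K.A V →+* FractionRing (DP K.A V ⧸ P) :=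
    (algebraMap (DP K.A V ⧸ P) (FractionRing (DP K.A V ⧸ P))).comp (Ideal.Quotient.mk P)
  have hπ : IsDiff π := isDiff_frac.comp hmk
  have hc : CharZero (FractionRing (DP K.A V ⧸ P)) :=
    charZero_of_injective_ringHom (π.comp C : K.A →+* _).injective
  refine ⟨⟨FractionRing (DP K.A V ⧸ P)⟩, π.comp C, fun v => π (X (v, 0, 0)),
    hπ.comp isDiff_C, ?_⟩
  intro p hp
  have h := eq_lift hπ
  change DP.lift (π.comp C) (fun v => π (X (v, 0, 0))) p = 0
  rw [← h]
  change algebraMap (DP K.A V ⧸ P) (FractionRing (DP K.A V ⧸ P)) (Ideal.Quotient.mk P p) = 0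
  rw [Ideal.Quotient.eq_zero_iff_mem.mpr hp, map_zero]

theorem exists_zero (K : DF) (Φ : DP K.A Unit) (hΦ : Φ ∉ Set.range (C : K.A →+* DP K.A Unit)) :
    ∃ (L : DF) (φ : K.A →+* L.A), IsDiff φ ∧ ∃ y : L.A, DP.lift φ (fun _ => y) Φ = 0 := by
  obtain ⟨P, hP, hmem, h1, h2⟩ := exists_prime_mem Φ hΦ
  obtain ⟨L, φ, z, hφ, hz⟩ := exists_ext K Unit P hP h1 h2
  exact ⟨L, φ, hφ, z (), hz Φ hmem⟩

theorem lift_map {B : Type u} {B' : Type v} {B'' : Type w} [CommRing B] [CommRing B'] [CommRing B'']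
    [Diff2 B''] (φ : B →+* B') (ψ : B' →+* B'') (y : B'') (Φ : DP B Unit) :
    DP.lift ψ (fun _ => y) (MvPolynomial.map φ Φ) = DP.lift (ψ.comp φ) (fun _ => y) Φ := by
  rw [DP.lift, DP.lift, coe_eval₂Hom, coe_eval₂Hom, eval₂_map]

theorem lift_comp {B : Type u} {B' : Type v} {B'' : Type w} [CommRing B] [CommRing B'] [CommRing B'']
    [Diff2 B'] [Diff2 B''] (φ : B →+* B') (ψ : B' →+* B'') (hψ : IsDiff ψ) (y : B')
    (Φ : DP B Unit) :
    DP.lift (ψ.comp φ) (fun _ => ψ y) Φ = ψ (DP.lift φ (fun _ => y) Φ) := by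
  induction Φ using MvPolynomial.induction_on with
  | C b => simp
  | add p q hp hq => rw [map_add, map_add, map_add, hp, hq]
  | mul_X p s hp => rw [map_mul, map_mul, map_mul, hp, DP.lift_X, DP.lift_X, IsDiff.iter hψ]

theorem exists_zeros (K : DF) (s : Finset (DP K.A Unit)) :
    (∀ Φ ∈ s, Φ ∉ Set.range (C : K.A →+* DP K.A Unit)) →
    ∃ (L : DF) (φ : K.A →+* L.A), IsDiff φ ∧ ∀ Φ ∈ s, ∃ y : L.A, DP.lift φ (fun _ => y) Φ = 0 := by
  classical
  induction s using Finset.induction_on with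
  | empty =>
    intro _
    exact ⟨K, RingHom.id _, IsDiff.id, fun Φ h => absurd h (Finset.notMem_empty _)⟩
  | insert Φ s hΦs ih =>
    intro hs
    obtain ⟨L, φ, hφ, hz⟩ := ih (fun Ψ hΨ => hs Ψ (Finset.mem_insert_of_mem hΨ))
    have h1 : MvPolynomial.map φ Φ ∉ Set.range (C : L.A →+* DP L.A Unit) := by
      rw [not_const_iff, vars_map_of_injective _ φ.injective, ← not_const_iff]
      exact hs Φ (Finset.mem_insert_self _ _)
    obtain ⟨L', φ', hφ', y, hy⟩ := exists_zero L _ h1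
    refine ⟨L', φ'.comp φ, hφ'.comp hφ, ?_⟩
    intro Ψ hΨ
    rcases Finset.mem_insert.mp hΨ with h | h
    · subst h
      exact ⟨y, by rw [← lift_map]; exact hy⟩
    · obtain ⟨y', hy'⟩ := hz Ψ h
      exact ⟨φ' y', by rw [lift_comp φ φ' hφ', hy', map_zero]⟩

theorem lift_g {B : Type u} {B' : Type v} [CommRing B] [Diff2 B] [CommRing B'] [Diff2 B']
    {V : Type w} {φ : B →+* B'} (hφ : IsDiff φ) (z : V → B') (v : V) (Φ : DP B Unit) :
    DP.lift φ z (DP.lift (C : B →+* DP B V) (fun _ => X (v, 0, 0)) Φ) =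
      DP.lift φ (fun _ => z v) Φ := by
  have h1 : (DP.lift φ z).comp C = φ := by
    ext b
    simp
  have h2 : DP.lift φ z (X (v, 0, 0)) = z v := by
    rw [DP.lift_X]; rfl
  have h := lift_comp (C : B →+* DP B V) (DP.lift φ z) (DP.isDiff_lift hφ z) (X (v, 0, 0)) Φ
  rw [h1, h2] at h
  exact h.symm

/-- Every nonconstant differential polynomial over `K` gets a zero. -/
theorem exists_step (K : DF) :
    ∃ (L : DF) (φ : K.A →+* L.A), IsDiff φ ∧
      ∀ Φ : DP K.A Unit, Φ ∉ Set.range (C : K.A →+* DP K.A Unit) →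
        ∃ y : L.A, DP.lift φ (fun _ => y) Φ = 0 := by
  classical
  let V : Type := {Φ : DP K.A Unit // Φ ∉ Set.range (C : K.A →+* DP K.A Unit)}
  let g : V → DP K.A V := fun Φ => DP.lift C (fun _ => X (Φ, 0, 0)) Φ.1
  let S : Set (DP K.A V) := {p | ∃ (a b : ℕ) (Φ : V), p = d1^[a] (d2^[b] (g Φ))}
  let I : Ideal (DP K.A V) := Ideal.span S
  have hS1 : ∀ p ∈ S, d1 p ∈ S := by
    rintro p ⟨a, b, Φ, rfl⟩
    exact ⟨a + 1, b, Φ, by rw [Function.iterate_succ_apply']⟩
  have hcomm : ∀ (n : ℕ) (a : DP K.A V), d2 (d1^[n] a) = d1^[n] (d2 a) := by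
    intro n
    induction n with
    | zero => intro a; rfl
    | succ n ih =>
      intro a
      rw [Function.iterate_succ_apply, Function.iterate_succ_apply, ih, Diff2.comm]
  have hS2 : ∀ p ∈ S, d2 p ∈ S := by
    rintro p ⟨a, b, Φ, rfl⟩
    exact ⟨a, b + 1, Φ, by rw [hcomm, Function.iterate_succ_apply']⟩
  have hI1 : ∀ p ∈ I, d1 p ∈ I := by
    intro p hp
    induction hp using Submodule.span_induction with
    | mem x hx => exact Ideal.subset_span (hS1 x hx)
    | zero => rw [map_zero]; exact I.zero_mem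
    | add x y _ _ hx hy => rw [map_add]; exact I.add_mem hx hy
    | smul c x hx' hx =>
      rw [smul_eq_mul, leib1]
      exact I.add_mem (I.mul_mem_left _ hx') (I.mul_mem_left _ hx)
  have hI2 : ∀ p ∈ I, d2 p ∈ I := by
    intro p hp
    induction hp using Submodule.span_induction with
    | mem x hx => exact Ideal.subset_span (hS2 x hx)
    | zero => rw [map_zero]; exact I.zero_mem
    | add x y _ _ hx hy => rw [map_add]; exact I.add_mem hx hy
    | smul c x hx' hx =>
      rw [smul_eq_mul, leib2]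
      exact I.add_mem (I.mul_mem_left _ hx') (I.mul_mem_left _ hx)
  have hI : I ≠ ⊤ := by
    intro htop
    have h1 : (1 : DP K.A V) ∈ Submodule.span (DP K.A V) S := by
      change (1 : DP K.A V) ∈ I
      rw [htop]; exact Submodule.mem_top
    obtain ⟨T, hTS, hT⟩ := Submodule.mem_span_finite_of_mem_span h1
    choose! a b F hF using hTS
    let s : Finset (DP K.A Unit) := T.attach.image fun x => (F x.2).1
    obtain ⟨L, φ, hφ, hz⟩ := exists_zeros K s (by
      intro Φ hΦ
      obtain ⟨x, _, rfl⟩ := Finset.mem_image.mp hΦ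
      exact (F x.2).2)
    let z : V → L.A := fun Φ => if h : Φ.1 ∈ s then (hz Φ.1 h).choose else 0
    have hθ : IsDiff (DP.lift φ z) := DP.isDiff_lift hφ z
    have hT' : Submodule.span (DP K.A V) (T : Set (DP K.A V)) ≤ RingHom.ker (DP.lift φ z) := by
      rw [Submodule.span_le]
      intro x hx
      have hxs : (F hx).1 ∈ s := Finset.mem_image.mpr ⟨⟨x, hx⟩, Finset.mem_attach _ _, rfl⟩
      change DP.lift φ z x = 0
      rw [hF hx, IsDiff.iter hθ, lift_g hφ]
      have h2 : z (F hx) = (hz (F hx).1 hxs).choose := dif_pos hxs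
      rw [h2, (hz (F hx).1 hxs).choose_spec, iterate_map_zero, iterate_map_zero]
    have h2 : DP.lift φ z 1 = 0 := hT' hT
    rw [map_one] at h2
    exact one_ne_zero h2
  have hn : ∀ n : ℕ, n ≠ 0 → IsUnit (n : DP K.A V) := by
    intro n hn
    have h : IsUnit (n : K.A) := isUnit_iff_ne_zero.mpr (Nat.cast_ne_zero.mpr hn)
    have h2 := h.map (C : K.A →+* DP K.A V)
    rwa [map_natCast] at h2
  obtain ⟨P, hP, hIP, h1, h2⟩ := exists_prime I hI hI1 hI2 hn
  obtain ⟨L, φ, z, hφ, hz⟩ := exists_ext K V P hP h1 h2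
  refine ⟨L, φ, hφ, fun Φ hΦ => ⟨z ⟨Φ, hΦ⟩, ?_⟩⟩
  have h3 : g ⟨Φ, hΦ⟩ ∈ P := hIP (Ideal.subset_span ⟨0, 0, ⟨Φ, hΦ⟩, rfl⟩)
  have h4 := hz _ h3
  rwa [lift_g hφ] at h4

end Pool.Agent.L7h93.AC
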