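import Mathlib
import Pool.Agent.L7h93.AC.Closure2

/-!
# A field with two commuting derivations in which every nonconstant differential polynomial has a
zero
-/

set_option autoImplicit false

namespace Pool.Agent.L7h93.AC

open MvPolynomial Pool.Agent.L7h73.AC

noncomputable def nxt (K : DF) : DF := (exists_step K).choose

noncomputable def nm (K : DF) : K.A →+* (nxt K).A := (exists_step K).choose_spec.choose

theorem nm_diff (K : DF) : IsDiff (nm K) := (exists_step K).choose_spec.choose_spec.1

theorem nm_zero (K : DF) (Φ : DP K.A Unit) (hΦ : Φ ∉ Set.range (C : K.A →+* DP K.A Unit)) :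
    ∃ y : (nxt K).A, DP.lift (nm K) (fun _ => y) Φ = 0 :=
  (exists_step K).choose_spec.choose_spec.2 Φ hΦ

/-- the zero derivations -/
@[reducible] def zeroDiff (B : Type) [CommRing B] : Diff2 B where
  d1 := 0
  d2 := 0
  leib1 := by intro a b; simp
  leib2 := by intro a b; simp
  comm := by intro b; rfl

/-- the rational numbers -/
def baseDF : DF :=
  let _ := zeroDiff ℚ
  ⟨ℚ⟩

noncomputable def sq : ℕ → DF
  | 0 => baseDF
  | n + 1 => nxt (sq n)

/-- the map from one step to the next -/
noncomputable def nms (n : ℕ) : (sq n).A →+* (sq (n + 1)).A := nm (sq n)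

theorem nms_diff (n : ℕ) : IsDiff (nms n) := nm_diff (sq n)

theorem nms_zero (n : ℕ) (Φ : DP (sq n).A Unit)
    (hΦ : Φ ∉ Set.range (C : (sq n).A →+* DP (sq n).A Unit)) :
    ∃ y : (sq (n + 1)).A, DP.lift (nms n) (fun _ => y) Φ = 0 := nm_zero (sq n) Φ hΦ

noncomputable def tr (m n : ℕ) (h : m ≤ n) : (sq m).A →+* (sq n).A :=
  Nat.leRecOn (C := fun k => (sq m).A →+* (sq k).A) h
    (fun {k} (g : (sq m).A →+* (sq k).A) => (nms k).comp g) (RingHom.id _)

theorem tr_self (m : ℕ) : tr m m le_rfl = RingHom.id _ := Nat.leRecOn_self _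

theorem tr_succ (m n : ℕ) (h : m ≤ n) : tr m (n + 1) (h.trans (Nat.le_succ n)) =
    (nms n).comp (tr m n h) :=
  Nat.leRecOn_succ (C := fun k => (sq m).A →+* (sq k).A) h _

theorem tr_trans (m n k : ℕ) (h : m ≤ n) (h' : n ≤ k) :
    (tr n k h').comp (tr m n h) = tr m k (h.trans h') := by
  induction k, h' using Nat.le_induction with
  | base => rw [tr_self, RingHom.id_comp]
  | succ k hk ih => rw [tr_succ n k hk, tr_succ m k (h.trans hk), ← ih, RingHom.comp_assoc]

theorem tr_diff (m n : ℕ) (h : m ≤ n) : IsDiff (tr m n h) := by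
  induction n, h using Nat.le_induction with
  | base => rw [tr_self]; exact IsDiff.id
  | succ n hn ih => rw [tr_succ m n hn]; exact (nms_diff _).comp ih

instance : DirectedSystem (fun n => (sq n).A) (fun i j h => tr i j h) where
  map_self i x := by rw [tr_self]; rfl
  map_map k j i hij hjk x := by rw [← tr_trans _ _ _ hij hjk]; rfl

/-- the limit -/
abbrev Lim : Type := DirectLimit (fun n => (sq n).A) (fun i j h => tr i j h)

noncomputable instance : Field Lim := inferInstance

noncomputable def io (n : ℕ) : (sq n).A →+* Lim :=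
  DirectLimit.Ring.of (fun n => (sq n).A) (fun i j h => tr i j h) n

theorem io_tr (m n : ℕ) (h : m ≤ n) : (io n).comp (tr m n h) = io m := by
  ext x
  exact DirectLimit.Ring.of_f (G := fun n => (sq n).A) (f := fun i j h => tr i j h) h x

theorem io_surj (x : Lim) : ∃ n y, io n y = x := by
  obtain ⟨n, y, h⟩ := DirectLimit.exists_eq_mk (F := fun n => (sq n).A)
    (f := fun i j h => tr i j h) x
  exact ⟨n, y, h.symm⟩

theorem io_surj2 (x y : Lim) : ∃ n a b, io n a = x ∧ io n b = y := by
  obtain ⟨n, a, b, h, h'⟩ := DirectLimit.exists_eq_mk₂ (F := fun n => (sq n).A)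
    (f := fun i j h => tr i j h) x y
  exact ⟨n, a, b, h.symm, h'.symm⟩

instance : CharZero Lim := charZero_of_injective_ringHom (io 0).injective

/-- the map of the limit given by compatible additive maps -/
noncomputable def lmap (δ : ∀ n, (sq n).A →+ (sq n).A)
    (hδ : ∀ m n (h : m ≤ n) x, tr m n h (δ m x) = δ n (tr m n h x)) : Lim →+ Lim :=
  AddMonoidHom.mk' (DirectLimit.map (fun i j h => tr i j h) (fun i j h => tr i j h)
    (fun n => δ n) hδ) (by
      intro x y
      obtain ⟨n, a, b, rfl, rfl⟩ := io_surj2 x y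
      rw [← map_add]
      have h : ∀ z, DirectLimit.map (fun i j h => tr i j h) (fun i j h => tr i j h)
        (fun n => δ n) hδ (io n z) = io n (δ n z) := fun z => rfl
      rw [h, h, h, map_add, map_add])

theorem lmap_io (δ : ∀ n, (sq n).A →+ (sq n).A)
    (hδ : ∀ m n (h : m ≤ n) x, tr m n h (δ m x) = δ n (tr m n h x)) (n : ℕ) (x : (sq n).A) :
    lmap δ hδ (io n x) = io n (δ n x) := rfl

noncomputable instance : Diff2 Lim where
  d1 := lmap (fun n => d1) (fun m n h x => (tr_diff m n h).d1 x)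
  d2 := lmap (fun n => d2) (fun m n h x => (tr_diff m n h).d2 x)
  leib1 := by
    intro x y
    obtain ⟨n, a, b, rfl, rfl⟩ := io_surj2 x y
    rw [← map_mul, lmap_io, lmap_io, lmap_io, leib1, map_add, map_mul, map_mul]
  leib2 := by
    intro x y
    obtain ⟨n, a, b, rfl, rfl⟩ := io_surj2 x y
    rw [← map_mul, lmap_io, lmap_io, lmap_io, leib2, map_add, map_mul, map_mul]
  comm := by
    intro x
    obtain ⟨n, a, rfl⟩ := io_surj x
    rw [lmap_io, lmap_io, lmap_io, lmap_io, Diff2.comm]

theorem io_diff (n : ℕ) : IsDiff (io n) := ⟨fun _ => rfl, fun _ => rfl⟩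

theorem poly_surj (Φ : DP Lim Unit) : ∃ n Φ', MvPolynomial.map (io n) Φ' = Φ := by
  induction Φ using MvPolynomial.induction_on with
  | C b =>
    obtain ⟨n, y, rfl⟩ := io_surj b
    exact ⟨n, C y, MvPolynomial.map_C _ _⟩
  | add p q hp hq =>
    obtain ⟨m, p', rfl⟩ := hp
    obtain ⟨n, q', rfl⟩ := hq
    refine ⟨max m n, MvPolynomial.map (tr m _ (le_max_left m n)) p' +
      MvPolynomial.map (tr n _ (le_max_right m n)) q', ?_⟩
    rw [map_add, map_map, map_map, io_tr, io_tr]
  | mul_X p s hp =>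
    obtain ⟨m, p', rfl⟩ := hp
    exact ⟨m, p' * X s, by rw [map_mul, map_X]⟩

theorem lim_closed : Closed Lim := by
  intro Φ hΦ
  obtain ⟨n, Φ', rfl⟩ := poly_surj Φ
  have hΦ' : Φ' ∉ Set.range (C : (sq n).A →+* DP (sq n).A Unit) := by
    rintro ⟨c, rfl⟩
    exact hΦ ⟨io n c, (MvPolynomial.map_C _ _).symm⟩
  obtain ⟨y, hy⟩ := nms_zero n Φ' hΦ'
  have h1 : (io (n + 1)).comp (nms n) = io n := by
    rw [← io_tr n (n + 1) (Nat.le_succ n)]
    congr 1
    rw [tr_succ n n le_rfl, tr_self, RingHom.comp_id]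
  refine ⟨io (n + 1) y, ?_⟩
  have h2 := lift_comp (nms n) (io (n + 1)) (io_diff (n + 1)) y Φ'
  rw [hy, map_zero, h1] at h2
  rw [lift_map]
  exact h2

end Pool.Agent.L7h93.AC

namespace Pool.Agent.L7h73.AC

/-- There is a field of characteristic zero with two commuting derivations in which every
nonconstant differential polynomial has a zero. -/
theorem exists_closed : ∃ (A : Type) (_ : Field A) (_ : CharZero A) (_ : Diff2 A), Closed A :=
  ⟨Pool.Agent.L7h93.AC.Lim, inferInstance, inferInstance, inferInstance,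
    Pool.Agent.L7h93.AC.lim_closed⟩

end Pool.Agent.L7h73.AC
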